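import Pool.Agent.H71.AL.Targets

/-!
# Board alv_modules, row MCD: the coding relation is Borel
-/

set_option autoImplicit false

open Set
open Pool.Agent.AL

namespace Pool.Agent.H54.ALV

/-- the space of the coding relation -/
abbrev PP : Type := Y × ((ℕ → ℚ → ℝ) × (ℕ → ℝ))

theorem m_bit (m n : ℕ) : Measurable fun p : PP => p.1.1 m n :=
  (measurable_pi_apply n).comp ((measurable_pi_apply m).comp (measurable_fst.comp measurable_fst))

theorem m_nat (k m : ℕ) : Measurable fun p : PP => p.1.2 k m :=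
  (measurable_pi_apply m).comp ((measurable_pi_apply k).comp (measurable_snd.comp measurable_fst))

theorem m_e (m : ℕ) : Measurable fun p : PP => p.2.2 m :=
  (measurable_pi_apply m).comp (measurable_snd.comp measurable_snd)

theorem m_a (k : ℕ) (q : ℚ) : Measurable fun p : PP => p.2.1 k q :=
  (measurable_pi_apply q).comp ((measurable_pi_apply k).comp (measurable_fst.comp measurable_snd))

theorem m_lt (m n : ℕ) : Measurable fun p : PP => lt p.1 m n :=
  measurableSet_setOf.1 (m_bit m n (measurableSet_singleton true))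

theorem m_eq (k m n : ℕ) : Measurable fun p : PP => p.1.2 k m = n :=
  measurableSet_setOf.1 (m_nat k m (measurableSet_singleton n))

theorem m_ltf (k m n : ℕ) : Measurable fun p : PP => lt p.1 (p.1.2 k m) n := by
  have h : (fun p : PP => lt p.1 (p.1.2 k m) n) = fun p : PP => ∃ j, p.1.2 k m = j ∧ lt p.1 j n := by
    funext p
    simp
  rw [h]
  exact Measurable.exists fun j => (m_eq k m j).and (m_lt j n)

theorem m_ltff (k a b : ℕ) : Measurable fun p : PP => lt p.1 (p.1.2 k a) (p.1.2 k b) := by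
  have h : (fun p : PP => lt p.1 (p.1.2 k a) (p.1.2 k b)) =
      fun p : PP => ∃ j, p.1.2 k b = j ∧ lt p.1 (p.1.2 k a) j := by
    funext p
    simp
  rw [h]
  exact Measurable.exists fun j => (m_eq k b j).and (m_ltf k a j)

theorem m_inc (k : ℕ) : Measurable fun p : PP => Inc (lt p.1) (p.1.2 k) :=
  Measurable.forall fun a => Measurable.forall fun b => (m_lt a b).imp (m_ltff k a b)

theorem m_ee (m n : ℕ) : Measurable fun p : PP => p.2.2 m < p.2.2 n :=
  measurableSet_setOf.1 (measurableSet_lt (m_e m) (m_e n))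

theorem m_eqe (m n : ℕ) : Measurable fun p : PP => p.2.2 m = p.2.2 n :=
  measurableSet_setOf.1 (measurableSet_eq_fun (m_e m) (m_e n))

theorem m_qe (q : ℝ) (n : ℕ) : Measurable fun p : PP => q < p.2.2 n :=
  measurableSet_setOf.1 (measurableSet_lt measurable_const (m_e n))

theorem m_eq' (q : ℝ) (n : ℕ) : Measurable fun p : PP => p.2.2 n < q :=
  measurableSet_setOf.1 (measurableSet_lt (m_e n) measurable_const)

theorem m_ae (k : ℕ) (q : ℚ) (n : ℕ) : Measurable fun p : PP => p.2.1 k q < p.2.2 n :=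
  measurableSet_setOf.1 (measurableSet_lt (m_a k q) (m_e n))

theorem ds_iff (e : ℕ → ℝ) : Ds (range e) ↔
    ∀ p q : ℚ, (p : ℝ) < q → ∃ m, (p : ℝ) < e m ∧ e m < q := by
  constructor
  · intro h p q hpq
    obtain ⟨d, ⟨m, rfl⟩, h1, h2⟩ := h p q hpq
    exact ⟨m, h1, h2⟩
  · intro h p q hpq
    obtain ⟨r, hr1, hr2⟩ := exists_rat_btwn hpq
    obtain ⟨s, hs1, hs2⟩ := exists_rat_btwn hr2
    obtain ⟨m, h1, h2⟩ := h r s hs1
    exact ⟨e m, ⟨m, rfl⟩, hr1.trans h1, h2.trans hs2⟩

theorem m_em : Measurable fun p : PP => Em (lt p.1) p.2.2 := by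
  have h : (fun p : PP => Em (lt p.1) p.2.2) = fun p : PP =>
      (∀ a b, p.2.2 a = p.2.2 b → a = b) ∧ (∀ m n, lt p.1 m n ↔ p.2.2 m < p.2.2 n) ∧
        ∀ u v : ℚ, (u : ℝ) < v → ∃ m, (u : ℝ) < p.2.2 m ∧ p.2.2 m < v := by
    funext p
    refine propext ⟨fun h => ⟨fun a b hab => h.inj hab, h.ord, (ds_iff _).1 h.den⟩, fun h => ?_⟩
    exact ⟨fun a b hab => h.1 a b hab, h.2.1, (ds_iff _).2 h.2.2⟩
  rw [h]
  refine Measurable.and ?_ (Measurable.and ?_ ?_)
  · exact Measurable.forall fun a => Measurable.forall fun b => (m_eqe a b).imp measurable_const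
  · exact Measurable.forall fun a => Measurable.forall fun b => (m_lt a b).iff (m_ee a b)
  · exact Measurable.forall fun u => Measurable.forall fun v => Measurable.imp measurable_const
      (Measurable.exists fun m => (m_qe u m).and (m_eq' v m))

theorem m_cd : Measurable fun p : PP => Cd p.1 p.2.1 p.2.2 := by
  unfold Cd
  refine Measurable.forall fun k => Measurable.forall fun q => Measurable.forall fun n => ?_
  refine (m_ae k q n).iff (Measurable.exists fun m => ?_)
  refine Measurable.and (Measurable.or ?_ ?_) ?_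
  · exact (m_inc _).and (m_qe _ _)
  · exact (m_inc _).not.and (m_eq' _ _)
  · exact (m_eq _ _ _).or (m_ltf _ _ _)

theorem pf_MCD : T_MCD := measurableSet_setOf.2 (m_em.and m_cd)

end Pool.Agent.H54.ALV
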